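import Pool.Agent.Q174.HF.Example

/-!
# A prime hard front of the max-tb Legendrian unknot

The definitions are in `Pool.Agent.Q174.HF.Defs`.

The front has `12` crossings, `5` left cusps and `5` right cusps and writhe `4`; from left to
right its singular points are (numbers give the height)

`L0 L2 X1 L2 X1 L2 X1 X0 X3 R2 X1 X1 X2 X3 R4 L2 X1 X3 R2 X1 R0 R0`.

Its smooth resolution is a prime diagram of the unknot to which no Reidemeister move can be
applied which does not increase the number of crossings; it is undone by one second
Reidemeister move creating two crossings followed by `13` moves which never increase the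
number of crossings.  It was found by a search over all prime knot shadows with at most `12`
crossings.
-/

namespace Pool.Agent.Results.MP_0e30b3_gt.PrimeHardFront

open Q174.HF

/-- There is a front `w` of the Legendrian unknot with Thurston-Bennequin invariant `-1` whose
smooth resolution `D` is prime and strongly hard on the sphere (hence also weakly hard).
Moreover `D` has `12` crossings and writhe `4`. -/
theorem result :
    ∃ (w : List Event) (l : List (HE × HE)) (D : Diagram),
      IsKnotFront w l ∧ IsResolution w l D ∧
      D.IsUnknot ∧
      (∃ o, IsOrientation w l o) ∧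
      (∀ o, IsOrientation w l o → writhe w o = 4 ∧ tb w o = -1) ∧
      D.n = 12 ∧
      D.IsPrime ∧ D.StronglyHard ∧ D.WeaklyHard :=
  ⟨Ex.word, Ex.segs, Ex.D0, Ex.isKnotFront, Ex.isResolution, Ex.isUnknot,
    ⟨Ex.ori, Ex.isOrientation⟩, fun _ ho => ⟨Ex.writhe_eq ho, Ex.tb_eq ho⟩, rfl, Ex.isPrime,
    Ex.stuck.stronglyHard (by decide) Ex.isUnknot, Ex.stuck.weaklyHard (by decide) Ex.isUnknot⟩

end Pool.Agent.Results.MP_0e30b3_gt.PrimeHardFront
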